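import Pool.Agent.Q255.TQ.Stm
import Pool.Agent.H423R2.RZL.HBLS

/-!
# Project TQ (helper255), job HBD

The dual form of the large sieve of Heath-Brown for real characters.  Proof by helper210.
-/

set_option autoImplicit false

namespace Pool.Agent.Q210.TQ

open Finset
open Pool.Agent.H306R2.RZ (js sqf osf LSB)
open Pool.Agent.Q255.TQ (S_HBD)

noncomputable section

theorem task_HBD : S_HBD := by
  intro δ hδ
  obtain ⟨C, hC, hL⟩ := Pool.Agent.H423R2.RZL.HBLSn.HBLS δ hδ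
  refine ⟨C, hC, fun M N hM hN b => ?_⟩
  set B : ℝ := C * ((M : ℝ) * N) ^ δ * (M + N) with hB
  have hM' : (1 : ℝ) ≤ M := by exact_mod_cast hM
  have hN' : (1 : ℝ) ≤ N := by exact_mod_cast hN
  have hB0 : 0 ≤ B := by positivity
  set c : ℕ → ℝ := fun s => ∑ m ∈ sqf M, b m * js m s with hc
  set T : ℝ := ∑ s ∈ osf N, c s ^ 2 with hT
  have hT0 : 0 ≤ T := Finset.sum_nonneg fun _ _ => sq_nonneg _
  have h1 : ∑ m ∈ sqf M, (∑ s ∈ osf N, c s * js m s) ^ 2 ≤ B * T := by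
    have h2 := hL M N hM hN fun s => (c s : ℂ)
    have h3 : ∀ m ∈ sqf M, ‖∑ n ∈ osf N, (c n : ℂ) * (js m n : ℂ)‖ ^ 2 =
        (∑ s ∈ osf N, c s * js m s) ^ 2 := by
      intro m _
      have h4 : ∑ n ∈ osf N, (c n : ℂ) * (js m n : ℂ) = ((∑ s ∈ osf N, c s * js m s : ℝ) : ℂ) := by
        push_cast
        rfl
      rw [h4, Complex.norm_real, Real.norm_eq_abs, sq_abs]
    rw [Finset.sum_congr rfl h3] at h2
    refine h2.trans (le_of_eq ?_)
    rw [hT]
    congr 1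
    refine Finset.sum_congr rfl fun s _ => ?_
    rw [Complex.norm_real, Real.norm_eq_abs, sq_abs]
  have h2 : T = ∑ m ∈ sqf M, b m * ∑ s ∈ osf N, c s * js m s := by
    rw [hT]
    have h3 : ∀ s ∈ osf N, c s ^ 2 = ∑ m ∈ sqf M, b m * (c s * js m s) := by
      intro s _
      have h4 : c s ^ 2 = c s * ∑ m ∈ sqf M, b m * js m s := by rw [sq]
      rw [h4, Finset.mul_sum]
      refine Finset.sum_congr rfl fun m _ => ?_
      ring
    rw [Finset.sum_congr rfl h3, Finset.sum_comm]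
    refine Finset.sum_congr rfl fun m _ => ?_
    rw [Finset.mul_sum]
  have h3 := Finset.sum_mul_sq_le_sq_mul_sq (sqf M) b (fun m => ∑ s ∈ osf N, c s * js m s)
  rw [← h2] at h3
  have hb0 : 0 ≤ ∑ m ∈ sqf M, b m ^ 2 := Finset.sum_nonneg fun _ _ => sq_nonneg _
  have h4 : T ^ 2 ≤ (∑ m ∈ sqf M, b m ^ 2) * (B * T) :=
    h3.trans (mul_le_mul_of_nonneg_left h1 hb0)
  show T ≤ B * ∑ m ∈ sqf M, b m ^ 2
  rcases hT0.eq_or_lt with h | h
  · rw [← h]
    positivity
  · by_contra hcon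
    push Not at hcon
    have h5 := mul_lt_mul_of_pos_right hcon h
    nlinarith

end

end Pool.Agent.Q210.TQ
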