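import Pool.Agent.Q255.TQ.Stm
import Pool.Agent.H568.SP.Moment
import Pool.Agent.H379R2.W.JChar

/-!
# Project TQ (helper255), job PVI

A character sum over a residue class modulo `8`, with a coprimality condition.  Proof by helper210.
-/

set_option autoImplicit false

namespace Pool.Agent.Q210.TQ

open Finset
open Pool.Agent.H306R2.RZ (js sqf osf)
open Pool.Agent.Q255.TQ (S_PVI)

noncomputable section

theorem js_abs_le (a : ℤ) (s : ℕ) : |js a s| ≤ 1 := Pool.Agent.H568.SP.jac_abs_le a s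

theorem js_mul (a b : ℕ) (s : ℕ) : js ((a * b : ℕ) : ℤ) s = js (a : ℤ) s * js (b : ℤ) s := by
  unfold js
  have h : (((a * b : ℕ) : ℤ)) = (a : ℤ) * (b : ℤ) := by push_cast; rfl
  rw [h, jacobiSym.mul_left]
  push_cast
  rfl

theorem js_modEq {a b s : ℕ} (h : a ≡ b [MOD s]) : js (a : ℤ) s = js (b : ℤ) s := by
  unfold js
  have h1 : (a : ℤ) % (s : ℤ) = (b : ℤ) % (s : ℤ) := by exact_mod_cast h
  rw [jacobiSym.mod_left, h1, ← jacobiSym.mod_left]

/-- the sum over a class modulo `8` -/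
theorem class_sum (s : ℕ) (hs : Odd s) (hsq : Squarefree s) (h3 : 3 ≤ s) (σ Z : ℕ) :
    |∑ m ∈ (Icc 1 Z).filter (fun m => m % 8 = σ), js (m : ℤ) s| ≤
      8 * Real.sqrt s * (1 + Real.log s) := by
  have hlog : 0 ≤ Real.log s := Real.log_nonneg (by exact_mod_cast (by omega : 1 ≤ s))
  have hpos : 0 ≤ 8 * Real.sqrt s * (1 + Real.log s) := by positivity
  by_cases hσ : σ < 8
  swap
  · have he : (Icc 1 Z).filter (fun m => m % 8 = σ) = ∅ := by
      rw [Finset.filter_eq_empty_iff]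
      intro m _ h
      omega
    rw [he, Finset.sum_empty, abs_zero]
    exact hpos
  have hne : ∃ a : ℕ, jacobiSym (a : ℤ) s = -1 := by
    obtain ⟨a, ha⟩ := Pool.Agent.H379R2.W.exists_neg_one hsq squarefree_one hs odd_one
      (by omega : s ≠ 1)
    rw [mul_one] at ha
    exact ⟨a, ha⟩
  obtain ⟨σ', hσ1, hσ8, hσm⟩ : ∃ σ' : ℕ, 1 ≤ σ' ∧ σ' ≤ 8 ∧ σ' % 8 = σ := by
    rcases Nat.eq_zero_or_pos σ with h | h
    · exact ⟨8, by omega, by omega, by omega⟩
    · exact ⟨σ, by omega, by omega, by omega⟩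
  -- the inverse of `8`
  obtain ⟨c0, hc1, hc⟩ : ∃ c0 : ℕ, 1 ≤ c0 ∧ 8 * c0 ≡ σ' [MOD s] := by
    have hcop : Nat.Coprime 8 s := by
      have h2 : Nat.Coprime 2 s := (Nat.coprime_two_left).2 hs
      exact Nat.Coprime.pow_left 3 h2
    obtain ⟨y, hy⟩ := Nat.exists_mul_mod_eq_one_of_coprime hcop (by omega : 1 < s)
    refine ⟨y * σ' + s, by omega, ?_⟩
    have h1 : 8 * (y * σ' + s) = (8 * y) * σ' + 8 * s := by ring
    rw [h1]
    have h2 : 8 * y ≡ 1 [MOD s] := by
      unfold Nat.ModEq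
      rw [hy.2, Nat.mod_eq_of_lt (by omega)]
    calc (8 * y) * σ' + 8 * s ≡ 1 * σ' + 0 [MOD s] :=
          Nat.ModEq.add (h2.mul_right _) ((Nat.modEq_zero_iff_dvd).2 (dvd_mul_left _ _))
      _ = σ' := by ring
  set K : ℕ := (Z + 8 - σ') / 8 with hK
  have h1 : ∑ m ∈ (Icc 1 Z).filter (fun m => m % 8 = σ), js (m : ℤ) s =
      ∑ j ∈ range K, js ((8 * j + σ' : ℕ) : ℤ) s := by
    refine Finset.sum_bij' (fun m _ => (m - σ') / 8) (fun j _ => 8 * j + σ') ?_ ?_ ?_ ?_ ?_
    · intro m hm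
      simp only [Finset.mem_filter, Finset.mem_Icc, Finset.mem_range] at hm ⊢
      omega
    · intro j hj
      simp only [Finset.mem_filter, Finset.mem_Icc, Finset.mem_range] at hj ⊢
      omega
    · intro m hm
      simp only [Finset.mem_filter, Finset.mem_Icc] at hm
      omega
    · intro j _
      omega
    · intro m hm
      simp only [Finset.mem_filter, Finset.mem_Icc] at hm
      have : m = 8 * ((m - σ') / 8) + σ' := by omega
      rw [← this]
  have h2 : ∀ j : ℕ, js ((8 * j + σ' : ℕ) : ℤ) s = js ((8 : ℕ) : ℤ) s * js ((c0 + j : ℕ) : ℤ) s := by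
    intro j
    rw [← js_mul]
    refine js_modEq ?_
    have h3 : 8 * (c0 + j) = 8 * j + 8 * c0 := by ring
    rw [h3]
    exact Nat.ModEq.add_left _ hc.symm
  have h3 : ∑ j ∈ range K, js ((c0 + j : ℕ) : ℤ) s = ∑ n ∈ Icc 1 (c0 + K - 1), js (n : ℤ) s -
      ∑ n ∈ Icc 1 (c0 - 1), js (n : ℤ) s := by
    have e1 : Icc 1 (c0 + K - 1) = Ico 1 (c0 + K) := by
      ext n
      simp only [Finset.mem_Icc, Finset.mem_Ico]
      omega
    have e2 : Icc 1 (c0 - 1) = Ico 1 c0 := by
      ext n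
      simp only [Finset.mem_Icc, Finset.mem_Ico]
      omega
    rw [e1, e2, ← Finset.sum_Ico_consecutive _ hc1 (by omega : c0 ≤ c0 + K), add_sub_cancel_left,
      Finset.sum_Ico_eq_sum_range, Nat.add_sub_cancel_left]
  have h4 : ∀ n : ℕ, |∑ n ∈ Icc 1 n, js (n : ℤ) s| ≤ 4 * Real.sqrt s * (1 + Real.log s) :=
    fun n => Pool.Agent.H568.SP.jac_sum_le s (by omega) hne n
  rw [h1, Finset.sum_congr rfl fun j _ => h2 j, ← Finset.mul_sum, abs_mul]
  have h5 : |∑ j ∈ range K, js ((c0 + j : ℕ) : ℤ) s| ≤ 8 * Real.sqrt s * (1 + Real.log s) := by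
    rw [h3]
    refine (abs_sub _ _).trans ?_
    have := h4 (c0 + K - 1)
    have := h4 (c0 - 1)
    linarith
  calc |js ((8 : ℕ) : ℤ) s| * |∑ j ∈ range K, js ((c0 + j : ℕ) : ℤ) s| ≤
      1 * (8 * Real.sqrt s * (1 + Real.log s)) :=
        mul_le_mul (js_abs_le _ _) h5 (abs_nonneg _) zero_le_one
    _ = _ := one_mul _

/-- coprimality by the Moebius function -/
theorem cop_ind (m l : ℕ) (hl : 1 ≤ l) : (if m.Coprime l then (1 : ℝ) else 0) =
    ∑ e ∈ l.divisors, if e ∣ m then ((ArithmeticFunction.moebius e : ℤ) : ℝ) else 0 := by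
  have hl0 : l ≠ 0 := by omega
  have hg0 : Nat.gcd m l ≠ 0 := fun h => hl0 (Nat.gcd_eq_zero_iff.1 h).2
  rw [← Finset.sum_filter]
  have h1 : l.divisors.filter (fun e => e ∣ m) = (Nat.gcd m l).divisors := by
    ext e
    simp only [Finset.mem_filter, Nat.mem_divisors, Nat.dvd_gcd_iff]
    constructor
    · rintro ⟨⟨h1, _⟩, h2⟩
      exact ⟨⟨h2, h1⟩, hg0⟩
    · rintro ⟨⟨h2, h1⟩, _⟩
      exact ⟨⟨h1, hl0⟩, h2⟩
  rw [h1]
  have h2 : (∑ d ∈ (Nat.gcd m l).divisors, (ArithmeticFunction.moebius d : ℤ)) =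
      if Nat.gcd m l = 1 then 1 else 0 := by
    have := congrArg (fun f => f (Nat.gcd m l)) ArithmeticFunction.moebius_mul_coe_zeta
    simp only [ArithmeticFunction.coe_mul_zeta_apply, ArithmeticFunction.one_apply] at this
    exact this
  have h3 := congrArg (fun z : ℤ => (z : ℝ)) h2
  push_cast at h3
  rw [h3]

theorem task_PVI : S_PVI := by
  intro s hs hsq h3 ρ Z l hl
  have hlog : 0 ≤ Real.log s := Real.log_nonneg (by exact_mod_cast (by omega : 1 ≤ s))
  set B : ℝ := 8 * Real.sqrt s * (1 + Real.log s) with hB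
  have hB0 : 0 ≤ B := by positivity
  have h1 : ∑ m ∈ (Icc 1 Z).filter (fun m => m % 8 = ρ ∧ m.Coprime l), js (m : ℤ) s =
      ∑ e ∈ l.divisors, ((ArithmeticFunction.moebius e : ℤ) : ℝ) *
        ∑ m ∈ (Icc 1 Z).filter (fun m => m % 8 = ρ ∧ e ∣ m), js (m : ℤ) s := by
    rw [← Finset.filter_filter, Finset.sum_filter (s := (Icc 1 Z).filter _)]
    have h2 : ∀ m ∈ (Icc 1 Z).filter (fun m => m % 8 = ρ),
        (if m.Coprime l then js (m : ℤ) s else 0) =
        ∑ e ∈ l.divisors, (if e ∣ m then ((ArithmeticFunction.moebius e : ℤ) : ℝ) else 0) *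
          js (m : ℤ) s := by
      intro m _
      rw [← Finset.sum_mul, ← cop_ind m l hl]
      split_ifs <;> simp
    rw [Finset.sum_congr rfl h2, Finset.sum_comm]
    refine Finset.sum_congr rfl fun e _ => ?_
    rw [← Finset.filter_filter, Finset.sum_filter (s := (Icc 1 Z).filter _), Finset.mul_sum]
    refine Finset.sum_congr rfl fun m _ => ?_
    split_ifs <;> simp
  have h2 : ∀ e ∈ l.divisors,
      |∑ m ∈ (Icc 1 Z).filter (fun m => m % 8 = ρ ∧ e ∣ m), js (m : ℤ) s| ≤ 8 * B := by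
    intro e he
    have he0 : 0 < e := Nat.pos_of_mem_divisors he
    have h4 : ∑ m ∈ (Icc 1 Z).filter (fun m => m % 8 = ρ ∧ e ∣ m), js (m : ℤ) s =
        js (e : ℤ) s * ∑ σ ∈ (range 8).filter (fun σ => (e * σ) % 8 = ρ),
          ∑ m ∈ (Icc 1 (Z / e)).filter (fun m => m % 8 = σ), js (m : ℤ) s := by
      have h5 : ∑ σ ∈ (range 8).filter (fun σ => (e * σ) % 8 = ρ),
          ∑ m ∈ (Icc 1 (Z / e)).filter (fun m => m % 8 = σ), js (m : ℤ) s =
          ∑ m ∈ (Icc 1 (Z / e)).filter (fun m => (e * m) % 8 = ρ), js (m : ℤ) s := by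
        rw [← Finset.sum_fiberwise_of_maps_to
          (s := (Icc 1 (Z / e)).filter (fun m => (e * m) % 8 = ρ))
          (t := (range 8).filter (fun σ => (e * σ) % 8 = ρ)) (g := fun m => m % 8)]
        · refine Finset.sum_congr rfl fun σ hσ => ?_
          rw [Finset.mem_filter, Finset.mem_range] at hσ
          refine Finset.sum_congr ?_ fun _ _ => rfl
          ext m
          simp only [Finset.mem_filter, Finset.mem_Icc]
          constructor
          · rintro ⟨h6, h7⟩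
            refine ⟨⟨h6, ?_⟩, h7⟩
            rw [← hσ.2, ← h7, Nat.mul_mod, Nat.mul_mod e (m % 8), Nat.mod_mod]
          · rintro ⟨⟨h6, _⟩, h7⟩
            exact ⟨h6, h7⟩
        · intro m hm
          rw [Finset.mem_filter] at hm
          rw [Finset.mem_filter, Finset.mem_range]
          refine ⟨Nat.mod_lt _ (by norm_num), ?_⟩
          rw [← hm.2, Nat.mul_mod, Nat.mod_mod, ← Nat.mul_mod]
      rw [h5, Finset.mul_sum]
      refine Finset.sum_bij' (fun m _ => m / e) (fun m _ => e * m) ?_ ?_ ?_ ?_ ?_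
      · intro m hm
        simp only [Finset.mem_filter, Finset.mem_Icc] at hm ⊢
        obtain ⟨⟨h6, h7⟩, h8, k, rfl⟩ := hm
        rw [Nat.mul_div_cancel_left _ he0]
        refine ⟨⟨?_, ?_⟩, h8⟩
        · rcases Nat.eq_zero_or_pos k with h | h
          · subst h; simp at h6
          · exact h
        · rw [Nat.le_div_iff_mul_le he0]
          linarith [Nat.mul_comm e k]
      · intro m hm
        simp only [Finset.mem_filter, Finset.mem_Icc] at hm ⊢
        obtain ⟨⟨h6, h7⟩, h8⟩ := hm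
        rw [Nat.le_div_iff_mul_le he0] at h7
        exact ⟨⟨Nat.mul_pos he0 h6, by linarith [Nat.mul_comm e m]⟩, h8, dvd_mul_right _ _⟩
      · intro m hm
        simp only [Finset.mem_filter] at hm
        exact Nat.mul_div_cancel' hm.2.2
      · intro m _
        exact Nat.mul_div_cancel_left _ he0
      · intro m hm
        simp only [Finset.mem_filter] at hm
        obtain ⟨k, hk⟩ := hm.2.2
        rw [hk, Nat.mul_div_cancel_left _ he0, js_mul]
    rw [h4, abs_mul]
    have h6 : |∑ σ ∈ (range 8).filter (fun σ => (e * σ) % 8 = ρ),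
          ∑ m ∈ (Icc 1 (Z / e)).filter (fun m => m % 8 = σ), js (m : ℤ) s| ≤ 8 * B := by
      refine (Finset.abs_sum_le_sum_abs _ _).trans ?_
      refine (Finset.sum_le_sum fun σ _ => class_sum s hs hsq h3 σ (Z / e)).trans ?_
      rw [Finset.sum_const, nsmul_eq_mul]
      have h7 : ((range 8).filter (fun σ => (e * σ) % 8 = ρ)).card ≤ 8 := by
        refine (Finset.card_filter_le _ _).trans ?_
        rw [Finset.card_range]
      exact mul_le_mul_of_nonneg_right (by exact_mod_cast h7) hB0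
    calc |js (e : ℤ) s| * _ ≤ 1 * (8 * B) :=
          mul_le_mul (js_abs_le _ _) h6 (abs_nonneg _) zero_le_one
      _ = _ := one_mul _
  rw [h1]
  refine (Finset.abs_sum_le_sum_abs _ _).trans ?_
  have h4 : ∀ e ∈ l.divisors, |((ArithmeticFunction.moebius e : ℤ) : ℝ) *
      ∑ m ∈ (Icc 1 Z).filter (fun m => m % 8 = ρ ∧ e ∣ m), js (m : ℤ) s| ≤ 8 * B := by
    intro e he
    rw [abs_mul]
    have h5 : |((ArithmeticFunction.moebius e : ℤ) : ℝ)| ≤ 1 := by
      have := ArithmeticFunction.abs_moebius_le_one (n := e)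
      exact_mod_cast this
    calc _ ≤ 1 * (8 * B) := mul_le_mul h5 (h2 e he) (abs_nonneg _) zero_le_one
      _ = _ := one_mul _
  refine (Finset.sum_le_sum h4).trans ?_
  rw [Finset.sum_const, nsmul_eq_mul, hB]
  have h5 : 0 ≤ (l.divisors.card : ℝ) * (Real.sqrt s * (1 + Real.log s)) := by positivity
  nlinarith

end

end Pool.Agent.Q210.TQ
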