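import Pool.Agent.Q255.TQ.Stm

/-!
# Project TQ (helper255), job SQM

Squarefree numbers in a class modulo `8` by the Moebius function, and back.  Proof by helper210.
-/

set_option autoImplicit false

namespace Pool.Agent.Q210.TQ

open Finset
open Pool.Agent.H306R2.RZ (js sqf osf)
open Pool.Agent.Q255.TQ (TT cl8 S_SQM)

noncomputable section

/-- the indicator of the squarefree numbers -/
theorem sqf_ind (Y m : ℕ) (hm1 : 1 ≤ m) (hmY : m ≤ Y) :
    (if Squarefree m then (1 : ℝ) else 0) =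
      ∑ d ∈ Icc 1 Y, if d ^ 2 ∣ m then ((ArithmeticFunction.moebius d : ℤ) : ℝ) else 0 := by
  have hn : m ≠ 0 := by omega
  obtain ⟨a, b, hab, ha⟩ := Nat.sq_mul_squarefree m
  have hb0 : b ≠ 0 := by rintro rfl; apply hn; rw [← hab]; simp
  have ha0 : a ≠ 0 := by rintro rfl; apply hn; rw [← hab]; simp
  have key : ∀ d : ℕ, d ^ 2 ∣ m ↔ d ∣ b := by
    intro d
    constructor
    · intro h
      have hd0 : d ≠ 0 := by
        rintro rfl
        rw [zero_pow two_ne_zero, zero_dvd_iff] at h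
        exact hn h
      rw [← Nat.factorization_le_iff_dvd (pow_ne_zero _ hd0) hn] at h
      rw [← Nat.factorization_le_iff_dvd hd0 hb0]
      intro p
      have h1 := h p
      rw [← hab, Nat.factorization_mul (pow_ne_zero _ hb0) ha0, Nat.factorization_pow,
        Nat.factorization_pow] at h1
      have h2 := ha.natFactorization_le_one p
      simp only [Finsupp.coe_smul, Finsupp.coe_add, Pi.add_apply, Pi.smul_apply, smul_eq_mul] at h1
      omega
    · intro h
      rw [← hab]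
      exact Dvd.dvd.mul_right (pow_dvd_pow_of_dvd h 2) a
  have h1 : (∑ d ∈ Icc 1 Y, if d ^ 2 ∣ m then ((ArithmeticFunction.moebius d : ℤ) : ℝ) else 0)
      = ∑ d ∈ b.divisors, ((ArithmeticFunction.moebius d : ℤ) : ℝ) := by
    rw [← Finset.sum_filter]
    apply Finset.sum_congr _ (fun _ _ => rfl)
    ext d
    simp only [Finset.mem_filter, Finset.mem_Icc, Nat.mem_divisors, key]
    constructor
    · rintro ⟨-, h⟩; exact ⟨h, hb0⟩
    · rintro ⟨h, -⟩
      refine ⟨⟨Nat.pos_of_dvd_of_pos h (Nat.pos_of_ne_zero hb0), ?_⟩, h⟩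
      have h3 : d ≤ b := Nat.le_of_dvd (Nat.pos_of_ne_zero hb0) h
      have h4 : b ∣ m := by rw [← hab]; exact Dvd.dvd.mul_right (dvd_pow_self b two_ne_zero) a
      exact (h3.trans (Nat.le_of_dvd (Nat.pos_of_ne_zero hn) h4)).trans hmY
  rw [h1]
  have h2 : (∑ d ∈ b.divisors, (ArithmeticFunction.moebius d : ℤ)) = if b = 1 then 1 else 0 := by
    have := congrArg (fun f => f b) ArithmeticFunction.moebius_mul_coe_zeta
    simp only [ArithmeticFunction.coe_mul_zeta_apply, ArithmeticFunction.one_apply] at this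
    exact this
  have h2' : (∑ d ∈ b.divisors, ((ArithmeticFunction.moebius d : ℤ) : ℝ)) =
      if b = 1 then 1 else 0 := by
    have := congrArg (fun z : ℤ => (z : ℝ)) h2
    push_cast at this
    exact this
  rw [h2']
  have h4 : Squarefree m ↔ b = 1 := by
    constructor
    · intro h
      have := h b (by rw [← hab, ← sq]; exact dvd_mul_right _ _)
      exact Nat.isUnit_iff.mp this
    · rintro rfl
      rw [← hab]; simpa using ha
  simp only [h4]

/-- the symbol at a square times a number -/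
theorem js_sq_mul (a m s : ℕ) : js ((a ^ 2 * m : ℕ) : ℤ) s = js (a : ℤ) s ^ 2 * js (m : ℤ) s := by
  unfold js
  have h : (((a ^ 2 * m : ℕ) : ℤ)) = (a : ℤ) ^ 2 * (m : ℤ) := by push_cast; rfl
  rw [h, jacobiSym.mul_left, jacobiSym.pow_left]
  push_cast
  rfl

theorem js_sq_one {a s : ℕ} (h : a.Coprime s) : js (a : ℤ) s ^ 2 = 1 := by
  unfold js
  have h1 : Int.gcd (a : ℤ) (s : ℤ) = 1 := by
    rw [Int.gcd_natCast_natCast]
    exact h
  have h2 := jacobiSym.sq_one h1
  exact_mod_cast congrArg (fun z : ℤ => (z : ℝ)) h2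

theorem js_zero {a s : ℕ} (hs : s ≠ 0) (h : ¬ a.Coprime s) : js (a : ℤ) s = 0 := by
  unfold js
  have : NeZero s := ⟨hs⟩
  have h1 : jacobiSym (a : ℤ) s = 0 := by
    rw [jacobiSym.eq_zero_iff_not_coprime, Int.gcd_natCast_natCast]
    exact h
  rw [h1, Int.cast_zero]

/-- odd squares are `1` modulo `8` -/
theorem sq_mod8 {a : ℕ} (ha : Odd a) (m : ℕ) : (a ^ 2 * m) % 8 = m % 8 := by
  obtain ⟨k, hk⟩ := ha
  have h1 : a ^ 2 % 8 = 1 := by
    have h2 : k % 2 = 0 ∨ k % 2 = 1 := Nat.mod_two_eq_zero_or_one k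
    have h3 : a ^ 2 = 4 * (k * (k + 1)) + 1 := by rw [hk]; ring
    have h4 : Even (k * (k + 1)) := Nat.even_mul_succ_self k
    obtain ⟨r, hr⟩ := h4
    rw [h3, hr]
    omega
  rw [Nat.mul_mod, h1, one_mul, Nat.mod_mod]

theorem odd_of_cl8 {ρ a m : ℕ} (hρ : ρ ∈ cl8) (h : (a ^ 2 * m) % 8 = ρ) : Odd a := by
  rw [← Nat.not_even_iff_odd]
  rintro ⟨k, hk⟩
  have h1 : a ^ 2 * m = 4 * (k ^ 2 * m) := by rw [hk]; ring
  rw [h1] at h
  simp only [cl8, Finset.mem_insert, Finset.mem_singleton] at hρ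
  omega

/-- the sum over multiples of a square -/
theorem inner (ρ : ℕ) (hρ : ρ ∈ cl8) (Y s l a : ℕ) (hs : Odd s) (ha : 1 ≤ a) :
    ∑ m ∈ (Icc 1 Y).filter (fun m => (m % 8 = ρ ∧ m.Coprime l) ∧ a ^ 2 ∣ m), js m s =
      if a.Coprime (2 * l * s) then
        ∑ m ∈ (Icc 1 (Y / a ^ 2)).filter (fun m => m % 8 = ρ ∧ m.Coprime l), js m s else 0 := by
  have hs0 : s ≠ 0 := by rintro rfl; exact absurd hs (by decide)
  have ha2 : 0 < a ^ 2 := by positivity
  split_ifs with hc
  · have c1 : a.Coprime 2 := (Nat.Coprime.coprime_mul_right_right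
      (Nat.Coprime.coprime_mul_right_right hc))
    have c2 : a.Coprime l := (Nat.Coprime.coprime_mul_left_right
      (Nat.Coprime.coprime_mul_right_right hc))
    have c3 : a.Coprime s := Nat.Coprime.coprime_mul_left_right hc
    have ho : Odd a := Nat.coprime_two_right.1 c1
    refine Finset.sum_bij' (fun m _ => m / a ^ 2) (fun m _ => a ^ 2 * m) ?_ ?_ ?_ ?_ ?_
    · intro m hm
      simp only [Finset.mem_filter, Finset.mem_Icc] at hm ⊢
      obtain ⟨⟨h1, h2⟩, ⟨h3, h4⟩, k, rfl⟩ := hm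
      rw [Nat.mul_div_cancel_left _ ha2]
      refine ⟨⟨?_, ?_⟩, ?_, ?_⟩
      · rcases Nat.eq_zero_or_pos k with h | h
        · subst h; simp at h1
        · exact h
      · rw [Nat.le_div_iff_mul_le ha2]
        linarith [Nat.mul_comm (a ^ 2) k]
      · rw [sq_mod8 ho] at h3
        exact h3
      · exact Nat.Coprime.coprime_mul_left h4
    · intro m hm
      simp only [Finset.mem_filter, Finset.mem_Icc] at hm ⊢
      obtain ⟨⟨h1, h2⟩, h3, h4⟩ := hm
      rw [Nat.le_div_iff_mul_le ha2] at h2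
      refine ⟨⟨?_, ?_⟩, ⟨?_, ?_⟩, dvd_mul_right _ _⟩
      · exact Nat.mul_pos ha2 h1
      · linarith [Nat.mul_comm (a ^ 2) m]
      · rw [sq_mod8 ho]
        exact h3
      · exact Nat.Coprime.mul_left (Nat.Coprime.pow_left 2 c2) h4
    · intro m hm
      simp only [Finset.mem_filter] at hm
      exact Nat.mul_div_cancel' hm.2.2
    · intro m _
      exact Nat.mul_div_cancel_left _ ha2
    · intro m hm
      simp only [Finset.mem_filter] at hm
      obtain ⟨k, hk⟩ := hm.2.2
      rw [hk, Nat.mul_div_cancel_left _ ha2, js_sq_mul, js_sq_one c3, one_mul]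
  · refine Finset.sum_eq_zero fun m hm => ?_
    simp only [Finset.mem_filter, Finset.mem_Icc] at hm
    obtain ⟨_, ⟨h3, h4⟩, k, rfl⟩ := hm
    have ho := odd_of_cl8 hρ h3
    have c1 : a.Coprime 2 := Nat.coprime_two_right.2 ho
    have c2 : a.Coprime l := by
      have h5 := Nat.Coprime.coprime_mul_right h4
      exact (Nat.coprime_pow_left_iff (by norm_num) _ _).1 h5
    have c3 : ¬ a.Coprime s := fun h => hc (Nat.Coprime.mul_right (Nat.Coprime.mul_right c1 c2) h)
    rw [js_sq_mul, js_zero hs0 c3]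
    ring

theorem uniq {b b' n n' : ℕ} (hb : b ≠ 0) (hb' : b' ≠ 0) (hn : Squarefree n) (hn' : Squarefree n')
    (h : b ^ 2 * n = b' ^ 2 * n') : b = b' := by
  refine Nat.eq_of_factorization_eq hb hb' fun p => ?_
  have h1 : (b ^ 2 * n).factorization p = (b' ^ 2 * n').factorization p := by rw [h]
  rw [Nat.factorization_mul (pow_ne_zero _ hb) hn.ne_zero,
    Nat.factorization_mul (pow_ne_zero _ hb') hn'.ne_zero, Nat.factorization_pow,
    Nat.factorization_pow] at h1
  have h2 := hn.natFactorization_le_one p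
  have h3 := hn'.natFactorization_le_one p
  simp only [Finsupp.coe_smul, Finsupp.coe_add, Pi.add_apply, Pi.smul_apply, smul_eq_mul] at h1
  omega

theorem part1 (ρ : ℕ) (hρ : ρ ∈ cl8) (Y s l : ℕ) (hs : Odd s) :
    TT ρ Y s l = ∑ a ∈ (Icc 1 Y).filter (fun a => a.Coprime (2 * l * s)),
    ((ArithmeticFunction.moebius a : ℤ) : ℝ) *
      ∑ m ∈ (Icc 1 (Y / a ^ 2)).filter (fun m => m % 8 = ρ ∧ m.Coprime l), js m s := by
  have h1 : TT ρ Y s l = ∑ m ∈ (Icc 1 Y).filter (fun m => m % 8 = ρ ∧ m.Coprime l),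
      (∑ d ∈ Icc 1 Y, if d ^ 2 ∣ m then ((ArithmeticFunction.moebius d : ℤ) : ℝ) else 0) * js m s := by
    unfold TT sqf
    rw [Finset.filter_filter, Finset.sum_filter, Finset.sum_filter]
    refine Finset.sum_congr rfl fun m hm => ?_
    rw [Finset.mem_Icc] at hm
    rw [← sqf_ind Y m hm.1 hm.2]
    by_cases h1 : Squarefree m
    · simp [h1]
    · simp [h1]
  rw [h1]
  simp only [Finset.sum_mul]
  rw [Finset.sum_comm, Finset.sum_filter (s := Icc 1 Y)
    (p := fun a => a.Coprime (2 * l * s))]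
  refine Finset.sum_congr rfl fun a ha => ?_
  rw [Finset.mem_Icc] at ha
  have h2 := inner ρ hρ Y s l a hs ha.1
  rw [← Finset.filter_filter, Finset.sum_filter (s := (Icc 1 Y).filter _)] at h2
  have h3 : ∑ m ∈ (Icc 1 Y).filter (fun m => m % 8 = ρ ∧ m.Coprime l),
      (if a ^ 2 ∣ m then ((ArithmeticFunction.moebius a : ℤ) : ℝ) else 0) * js m s =
      ((ArithmeticFunction.moebius a : ℤ) : ℝ) *
        ∑ m ∈ (Icc 1 Y).filter (fun m => m % 8 = ρ ∧ m.Coprime l),
          if a ^ 2 ∣ m then js m s else 0 := by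
    rw [Finset.mul_sum]
    refine Finset.sum_congr rfl fun m _ => ?_
    split_ifs <;> simp
  rw [h3, h2]
  split_ifs <;> simp

theorem part2 (ρ : ℕ) (hρ : ρ ∈ cl8) (Y s l : ℕ) (hs : Odd s) :
    ∑ m ∈ (Icc 1 Y).filter (fun m => m % 8 = ρ ∧ m.Coprime l), js m s =
    ∑ b ∈ (Icc 1 Y).filter (fun b => b.Coprime (2 * l * s)), TT ρ (Y / b ^ 2) s l := by
  have hs0 : s ≠ 0 := by rintro rfl; exact absurd hs (by decide)
  -- the number of the divisors `b` with `m = b² n`, `n` squarefree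
  have h1 : ∀ m ∈ (Icc 1 Y).filter (fun m => m % 8 = ρ ∧ m.Coprime l), js m s =
      ∑ b ∈ Icc 1 Y, if b ^ 2 ∣ m ∧ Squarefree (m / b ^ 2) then js m s else 0 := by
    intro m hm
    rw [Finset.mem_filter, Finset.mem_Icc] at hm
    obtain ⟨⟨hm1, hmY⟩, -⟩ := hm
    obtain ⟨n, b, hb, hn⟩ := Nat.sq_mul_squarefree m
    have hm0 : m ≠ 0 := by omega
    have hb0 : b ≠ 0 := by rintro rfl; apply hm0; rw [← hb]; simp
    have hb2 : 0 < b ^ 2 := by positivity
    have hbm : b ≤ m := by
      have h2 : b ∣ m := by rw [← hb]; exact Dvd.dvd.mul_right (dvd_pow_self b two_ne_zero) n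
      exact Nat.le_of_dvd (by omega) h2
    rw [Finset.sum_eq_single b]
    · rw [if_pos]
      refine ⟨by rw [← hb]; exact dvd_mul_right _ _, ?_⟩
      rw [← hb, Nat.mul_div_cancel_left _ hb2]
      exact hn
    · intro b' hb' hne
      rw [Finset.mem_Icc] at hb'
      rw [if_neg]
      rintro ⟨⟨n', hn'⟩, h3⟩
      have hb2' : 0 < b' ^ 2 := by have := hb'.1; positivity
      rw [hn', Nat.mul_div_cancel_left _ hb2'] at h3
      apply hne
      exact uniq (by omega) hb0 h3 hn (by rw [← hn', hb])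
    · intro h
      exact absurd (Finset.mem_Icc.2 ⟨by omega, by omega⟩) h
  rw [Finset.sum_congr rfl h1, Finset.sum_comm, Finset.sum_filter (s := Icc 1 Y)
    (p := fun b => b.Coprime (2 * l * s))]
  refine Finset.sum_congr rfl fun b hb => ?_
  rw [Finset.mem_Icc] at hb
  have hb2 : 0 < b ^ 2 := by have := hb.1; positivity
  rw [← Finset.sum_filter, Finset.filter_filter]
  split_ifs with hc
  · have c1 : b.Coprime 2 := (Nat.Coprime.coprime_mul_right_right
      (Nat.Coprime.coprime_mul_right_right hc))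
    have c2 : b.Coprime l := (Nat.Coprime.coprime_mul_left_right
      (Nat.Coprime.coprime_mul_right_right hc))
    have c3 : b.Coprime s := Nat.Coprime.coprime_mul_left_right hc
    have ho : Odd b := Nat.coprime_two_right.1 c1
    unfold TT sqf
    rw [Finset.filter_filter]
    refine Finset.sum_bij' (fun m _ => m / b ^ 2) (fun m _ => b ^ 2 * m) ?_ ?_ ?_ ?_ ?_
    · intro m hm
      simp only [Finset.mem_filter, Finset.mem_Icc] at hm ⊢
      obtain ⟨⟨h1, h2⟩, ⟨h3, h4⟩, ⟨k, rfl⟩, h5⟩ := hm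
      rw [Nat.mul_div_cancel_left _ hb2] at h5 ⊢
      refine ⟨⟨?_, ?_⟩, h5, ?_, ?_⟩
      · rcases Nat.eq_zero_or_pos k with h | h
        · subst h; simp at h1
        · exact h
      · rw [Nat.le_div_iff_mul_le hb2]
        linarith [Nat.mul_comm (b ^ 2) k]
      · rw [sq_mod8 ho] at h3
        exact h3
      · exact Nat.Coprime.coprime_mul_left h4
    · intro m hm
      simp only [Finset.mem_filter, Finset.mem_Icc] at hm ⊢
      obtain ⟨⟨h1, h2⟩, h5, h3, h4⟩ := hm
      rw [Nat.le_div_iff_mul_le hb2] at h2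
      rw [Nat.mul_div_cancel_left _ hb2]
      refine ⟨⟨?_, ?_⟩, ⟨?_, ?_⟩, dvd_mul_right _ _, h5⟩
      · exact Nat.mul_pos hb2 h1
      · linarith [Nat.mul_comm (b ^ 2) m]
      · rw [sq_mod8 ho]
        exact h3
      · exact Nat.Coprime.mul_left (Nat.Coprime.pow_left 2 c2) h4
    · intro m hm
      simp only [Finset.mem_filter] at hm
      exact Nat.mul_div_cancel' hm.2.2.1
    · intro m _
      exact Nat.mul_div_cancel_left _ hb2
    · intro m hm
      simp only [Finset.mem_filter] at hm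
      obtain ⟨k, hk⟩ := hm.2.2.1
      rw [hk, Nat.mul_div_cancel_left _ hb2, js_sq_mul, js_sq_one c3, one_mul]
  · refine Finset.sum_eq_zero fun m hm => ?_
    simp only [Finset.mem_filter, Finset.mem_Icc] at hm
    obtain ⟨_, ⟨h3, h4⟩, ⟨k, rfl⟩, _⟩ := hm
    have ho := odd_of_cl8 hρ h3
    have c1 : b.Coprime 2 := Nat.coprime_two_right.2 ho
    have c2 : b.Coprime l := by
      have h5 := Nat.Coprime.coprime_mul_right h4
      exact (Nat.coprime_pow_left_iff (by norm_num) _ _).1 h5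
    have c3 : ¬ b.Coprime s := fun h => hc (Nat.Coprime.mul_right (Nat.Coprime.mul_right c1 c2) h)
    rw [js_sq_mul, js_zero hs0 c3]
    ring

theorem task_SQM : S_SQM := fun ρ hρ Y s l hs _ => ⟨part1 ρ hρ Y s l hs, part2 ρ hρ Y s l hs⟩

end

end Pool.Agent.Q210.TQ
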